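import Mathlib
import Pool.Agent.QCube.PackBip2

set_option autoImplicit false

namespace Pool.Agent.Results.MP_436ed3_co.BipartiteAllSizes

open Finset Filter Topology

/-- the degree of a vertex -/
noncomputable def deg {V : Type} (G : SimpleGraph V) (v : V) : ℕ := (G.neighborSet v).ncard

/-- the maximum degree of a graph on `Fin n` -/
noncomputable def maxDeg {n : ℕ} (G : SimpleGraph (Fin n)) : ℕ := univ.sup (fun v => deg G v)

/-- `G₁` and `G₂` pack: some permutation of the vertices sends every edge of `G₁` to a non-edge of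
`G₂` -/
def Packs {n : ℕ} (G₁ G₂ : SimpleGraph (Fin n)) : Prop :=
  ∃ σ : Equiv.Perm (Fin n), ∀ u v, G₁.Adj u v → ¬ G₂.Adj (σ u) (σ v)

theorem pack_of_deg : ∃ D0 : ℕ, ∀ D : ℕ, D0 ≤ D → ∀ n : ℕ, D ^ 10 ≤ n →
    ∀ G₁ G₂ : SimpleGraph (Fin n), G₁.Colorable 2 →
    maxDeg G₁ ≤ D → (maxDeg G₂ : ℝ) ≤ Real.log D / (200 * D) * n → Packs G₁ G₂ := by
  classical
  obtain ⟨D0, h⟩ := Pool.Agent.QCube.pack_bip2
  refine ⟨D0, fun D hD n hn G₁ G₂ hcol h1 h2 => ?_⟩
  have hdeg : ∀ (G : SimpleGraph (Fin n)) (v : Fin n), deg G v = G.degree v := by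
    intro G v
    rw [deg, Set.ncard_eq_toFinset_card', ← SimpleGraph.card_neighborSet_eq_degree,
      Set.toFinset_card]
  have hmax : ∀ (G : SimpleGraph (Fin n)) (v : Fin n), deg G v ≤ maxDeg G := fun G v =>
    Finset.le_sup (f := fun v => deg G v) (mem_univ v)
  exact h D hD n hn G₁ G₂ hcol
    (fun v => by
      have h3 := (hmax G₁ v).trans h1
      rw [hdeg G₁ v] at h3
      convert h3)
    (fun v => by
      have h3 : (deg G₂ v : ℝ) ≤ Real.log D / (200 * D) * n :=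
        le_trans (by exact_mod_cast hmax G₂ v) h2
      rw [hdeg G₂ v] at h3
      convert h3)

/-- (1) For all `D ≥ D0` and all `n ≥ D ^ 10`: a bipartite graph `G₁` on `n` vertices with
`Δ(G₁) ≤ D` and a graph `G₂` with `Δ(G₂) ≤ (log D / (200 D)) n` pack.
(2) The Bollobás–Eldridge–Catlin conjecture holds if `G₁` is bipartite, `D0 ≤ Δ(G₁)` and
`Δ(G₁) ^ 10 ≤ n`. -/
theorem result : ∃ D0 : ℕ,
    (∀ D : ℕ, D0 ≤ D → ∀ n : ℕ, D ^ 10 ≤ n →
      ∀ G₁ G₂ : SimpleGraph (Fin n), G₁.Colorable 2 → maxDeg G₁ ≤ D →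
      (maxDeg G₂ : ℝ) ≤ Real.log D / (200 * D) * n → Packs G₁ G₂) ∧
    (∀ (n : ℕ) (G₁ G₂ : SimpleGraph (Fin n)), G₁.Colorable 2 → D0 ≤ maxDeg G₁ →
      maxDeg G₁ ^ 10 ≤ n →
      (maxDeg G₁ + 1) * (maxDeg G₂ + 1) ≤ n + 1 → Packs G₁ G₂) := by
  obtain ⟨D0, h⟩ := pack_of_deg
  have hlogt : Tendsto (fun n : ℕ => Real.log (n : ℝ)) atTop atTop :=
    Real.tendsto_log_atTop.comp tendsto_natCast_atTop_atTop
  obtain ⟨D1, hD1⟩ := eventually_atTop.1 (hlogt.eventually (eventually_ge_atTop (200 : ℝ)))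
  refine ⟨max D0 (max D1 1), fun D hD => h D (le_trans (le_max_left _ _) hD), ?_⟩
  intro n G₁ G₂ hcol hD hn hbec
  have hD0 : D0 ≤ maxDeg G₁ := le_trans (le_max_left _ _) hD
  have hD1' : D1 ≤ maxDeg G₁ := le_trans (le_trans (le_max_left _ _) (le_max_right _ _)) hD
  have hD2' : 1 ≤ maxDeg G₁ := le_trans (le_trans (le_max_right _ _) (le_max_right _ _)) hD
  refine h (maxDeg G₁) hD0 n hn G₁ G₂ hcol le_rfl ?_
  set d : ℕ := maxDeg G₁ with hd
  set e : ℕ := maxDeg G₂ with he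
  have h1 : d * e ≤ n := by nlinarith
  have h2 : (d : ℝ) * e ≤ n := by exact_mod_cast h1
  have h3 := hD1 d hD1'
  have hdR : (1 : ℝ) ≤ d := by exact_mod_cast hD2'
  have h4 : (1 : ℝ) / d ≤ Real.log d / (200 * d) := by
    rw [div_le_div_iff₀ (by linarith) (by linarith)]
    nlinarith
  have h5 : (e : ℝ) ≤ 1 / d * n := by
    rw [div_mul_eq_mul_div, one_mul, le_div_iff₀ (by linarith)]
    linarith
  exact h5.trans (mul_le_mul_of_nonneg_right h4 (Nat.cast_nonneg _))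

end Pool.Agent.Results.MP_436ed3_co.BipartiteAllSizes
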